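import Pool.Agent.TH304.MI.Stm

/-!
# Project MI: filling a disc (calibration inside)
-/

set_option autoImplicit false

open MeasureTheory Set Metric Filter Topology
open scoped ENNReal Real

noncomputable section

namespace Pool.Agent.TH318.MI

open Pool.Agent.TH304.MI

/-! ## Elementary facts on the planar divergence -/

lemma dv2_congr {Z W : ℂ → ℂ} {z : ℂ} (h : Z =ᶠ[𝓝 z] W) : dv2 Z z = dv2 W z := by
  unfold dv2
  rw [h.fderiv_eq]

lemma dv2_add {Z W : ℂ → ℂ} {z : ℂ} (hZ : DifferentiableAt ℝ Z z) (hW : DifferentiableAt ℝ W z) :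
    dv2 (fun w => Z w + W w) z = dv2 Z z + dv2 W z := by
  unfold dv2
  rw [fderiv_fun_add hZ hW]
  simp only [add_apply, Complex.add_re, Complex.add_im]
  ring

lemma dv2_smul {c : ℂ → ℝ} {Z : ℂ → ℂ} {z : ℂ} (hc : DifferentiableAt ℝ c z)
    (hZ : DifferentiableAt ℝ Z z) :
    dv2 (fun w => c w • Z w) z = c z * dv2 Z z +
      (fderiv ℝ c z 1 * (Z z).re + fderiv ℝ c z Complex.I * (Z z).im) := by
  unfold dv2
  rw [fderiv_fun_smul hc hZ]
  simp only [add_apply, smul_apply,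
    ContinuousLinearMap.smulRight_apply, Complex.add_re, Complex.add_im, Complex.smul_re,
    Complex.smul_im, smul_eq_mul]
  ring

lemma dv2_cont {Z : ℂ → ℂ} (hZ : ContDiff ℝ 1 Z) : Continuous (dv2 Z) := by
  unfold dv2
  have h := hZ.continuous_fderiv one_ne_zero
  have h1 : Continuous fun z => fderiv ℝ Z z 1 := h.clm_apply continuous_const
  have h2 : Continuous fun z => fderiv ℝ Z z Complex.I := h.clm_apply continuous_const
  exact (Complex.continuous_re.comp h1).add (Complex.continuous_im.comp h2)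

lemma dv2_supp {Z : ℂ → ℂ} (hZ : HasCompactSupport Z) : HasCompactSupport (dv2 Z) := by
  refine HasCompactSupport.intro (K := tsupport Z) hZ ?_
  intro z hz
  have h0 : Z =ᶠ[𝓝 z] 0 := notMem_tsupport_iff_eventuallyEq.1 hz
  unfold dv2
  rw [h0.fderiv_eq]
  simp

lemma dv2_integrable {Z : ℂ → ℂ} (hZ : ContDiff ℝ 1 Z) (hs : HasCompactSupport Z) :
    Integrable (dv2 Z) :=
  (dv2_cont hZ).integrable_of_hasCompactSupport (dv2_supp hs)

lemma dv2_bdd {Z : ℂ → ℂ} (hZ : ContDiff ℝ 1 Z) (hs : HasCompactSupport Z) :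
    ∃ K : ℝ, 0 ≤ K ∧ ∀ z, |dv2 Z z| ≤ K := by
  obtain ⟨K, hK⟩ := (dv2_supp hs).exists_bound_of_continuous (dv2_cont hZ)
  exact ⟨K, (abs_nonneg _).trans (hK 0), fun z => hK z⟩

/-! ## The transition function -/

/-- A Lipschitz constant for the smooth transition. -/
lemma st_lip : ∃ M : ℝ, 0 ≤ M ∧ ∀ x y : ℝ,
    |Real.smoothTransition x - Real.smoothTransition y| ≤ M * |x - y| := by
  have hcd : ContDiff ℝ 1 Real.smoothTransition := Real.smoothTransition.contDiff (n := 1)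
  have hc : Continuous (deriv Real.smoothTransition) := hcd.continuous_deriv le_rfl
  have hs : HasCompactSupport (deriv Real.smoothTransition) := by
    refine HasCompactSupport.intro (K := Icc (0 : ℝ) 1) isCompact_Icc ?_
    intro x hx
    rcases lt_or_ge x 0 with h | h
    · have : Real.smoothTransition =ᶠ[𝓝 x] fun _ => 0 := by
        filter_upwards [Iio_mem_nhds h] with y hy
        exact Real.smoothTransition.zero_of_nonpos (le_of_lt hy)
      rw [this.deriv_eq]; simp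
    · have h1 : 1 < x := by
        by_contra h2
        exact hx ⟨h, not_lt.1 h2⟩
      have : Real.smoothTransition =ᶠ[𝓝 x] fun _ => 1 := by
        filter_upwards [Ioi_mem_nhds h1] with y hy
        exact Real.smoothTransition.one_of_one_le (le_of_lt hy)
      rw [this.deriv_eq]; simp
  obtain ⟨M, hM⟩ := hs.exists_bound_of_continuous hc
  have hM0 : 0 ≤ M := (norm_nonneg _).trans (hM 0)
  refine ⟨M, hM0, fun x y => ?_⟩
  have := Convex.norm_image_sub_le_of_norm_deriv_le (f := Real.smoothTransition) (s := univ)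
    (C := M) (x := y) (y := x) (fun z _ => (hcd.differentiable one_ne_zero).differentiableAt)
    (fun z _ => hM z) convex_univ (mem_univ _) (mem_univ _)
  simpa [Real.norm_eq_abs] using this


/-! ## The layer -/

lemma al_D1 {r : ℝ} (h0 : 0 < r) (h1 : r < 1) : al D1 r = 2 * π := by
  unfold al
  have : {θ : ℝ | θ ∈ Ioo (-π) π ∧ (r : ℂ) * Complex.exp (θ * Complex.I) ∈ D1} = Ioo (-π) π := by
    ext θ
    simp only [mem_ofPred_eq, and_iff_left_iff_imp]
    intro _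
    simp only [D1, mem_ball_zero_iff, norm_mul, Complex.norm_exp_ofReal_mul_I, mul_one,
      Complex.norm_real, Real.norm_eq_abs, abs_of_pos h0]
    exact h1
  rw [this, Real.volume_Ioo, ENNReal.toReal_ofReal]
  · ring
  · have := Real.pi_pos; linarith

/-- The closed layer. -/
def lay (t0 η : ℝ) : Set ℂ := {z : ℂ | t0 ≤ ‖z‖ ∧ ‖z‖ ≤ t0 + η}

lemma lay_meas (t0 η : ℝ) : MeasurableSet (lay t0 η) := by
  have h1 : IsClosed {z : ℂ | t0 ≤ ‖z‖} := isClosed_le continuous_const continuous_norm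
  have h2 : IsClosed {z : ℂ | ‖z‖ ≤ t0 + η} := isClosed_le continuous_norm continuous_const
  exact (h1.inter h2).measurableSet

lemma D1_meas : MeasurableSet D1 := measurableSet_ball

lemma vol_D1_lt : volume D1 < ⊤ := measure_ball_lt_top

lemma layer (hpol : S_pol) {A : Set ℂ} (hA : MeasurableSet A) (hA1 : A ⊆ D1) {t0 η : ℝ}
    (ht0 : 0 < t0) (hη : 0 < η) (hη1 : t0 + η < 1) :
    volume.real (lay t0 η \ A) ≤ ∫ r in t0..(t0 + η), (2 * π - al A r) := by
  have hlay : lay t0 η ⊆ D1 := by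
    intro z hz
    simp only [D1, mem_ball_zero_iff]
    exact lt_of_le_of_lt hz.2 hη1
  set g : ℝ → ℝ := (Icc t0 (t0 + η)).indicator (fun _ => (1 : ℝ)) with hg
  have hgm : Measurable g := measurable_const.indicator measurableSet_Icc
  have hgb : ∀ r, |g r| ≤ 1 := by
    intro r
    by_cases h : r ∈ Icc t0 (t0 + η)
    · simp [hg, indicator_of_mem h]
    · simp [hg, indicator_of_notMem h]
  have hg0 : ∀ r, 0 ≤ g r := by
    intro r
    by_cases h : r ∈ Icc t0 (t0 + η)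
    · simp [hg, indicator_of_mem h]
    · simp [hg, indicator_of_notMem h]
  have hgi : IntegrableOn (fun z : ℂ => g ‖z‖) D1 := by
    refine Measure.integrableOn_of_bounded (M := 1) vol_D1_lt.ne
      (hgm.comp measurable_norm).aestronglyMeasurable ?_
    filter_upwards with z
    exact hgb _
  have hgz : (fun z : ℂ => g ‖z‖) = (lay t0 η).indicator (fun _ => (1 : ℝ)) := by
    funext z
    by_cases h : ‖z‖ ∈ Icc t0 (t0 + η)
    · have h' : z ∈ lay t0 η := h
      simp [hg, indicator_of_mem h, indicator_of_mem h']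
    · have h' : z ∉ lay t0 η := h
      simp [hg, indicator_of_notMem h, indicator_of_notMem h']
  obtain ⟨hm, hbd, hAeq⟩ := hpol A hA hA1 g hgm hgi
  obtain ⟨hmD, hbdD, hDeq⟩ := hpol D1 D1_meas subset_rfl g hgm hgi
  have hvol : volume.real (lay t0 η \ A) = (∫ z in D1, g ‖z‖) - ∫ z in A, g ‖z‖ := by
    have h1 : ∫ z in D1, g ‖z‖ = (∫ z in A, g ‖z‖) + ∫ z in D1 \ A, g ‖z‖ := by
      have := setIntegral_union (μ := volume) (f := fun z : ℂ => g ‖z‖) (s := A) (t := D1 \ A)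
        disjoint_sdiff_self_right (D1_meas.diff hA) (hgi.mono_set hA1)
        (hgi.mono_set sdiff_subset)
      rw [union_sdiff_cancel hA1] at this
      exact this
    rw [h1, add_sub_cancel_left, hgz, setIntegral_indicator (lay_meas t0 η)]
    have h2 : (D1 \ A) ∩ lay t0 η = lay t0 η \ A := by
      ext z
      constructor
      · rintro ⟨⟨_, h⟩, h'⟩
        exact ⟨h', h⟩
      · rintro ⟨h', h⟩
        exact ⟨⟨hlay h', h⟩, h'⟩
    rw [h2]
    simp [Measure.real]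
  rw [hvol, hAeq, hDeq]
  have hbi : ∀ (B : Set ℂ), Measurable (al B) → (∀ r, 0 ≤ al B r ∧ al B r ≤ 2 * π) →
      IntegrableOn (fun r => g r * r * al B r) (Ioo (0 : ℝ) 1) := by
    intro B hB hb
    refine Measure.integrableOn_of_bounded (M := 2 * π) (by simp)
      ((hgm.mul measurable_id).mul hB).aestronglyMeasurable ?_
    filter_upwards [ae_restrict_mem measurableSet_Ioo] with r hr
    rw [Real.norm_eq_abs, abs_mul, abs_mul, abs_of_nonneg (hb r).1, abs_of_pos hr.1]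
    have h1 := hgb r
    have h2 := (hb r).2
    have h3 := (hb r).1
    have h4 : |g r| * r ≤ 1 := by
      calc |g r| * r ≤ 1 * 1 := mul_le_mul h1 hr.2.le hr.1.le zero_le_one
        _ = 1 := by ring
    calc |g r| * r * al B r ≤ 1 * al B r := mul_le_mul_of_nonneg_right h4 h3
      _ ≤ 2 * π := by linarith
  rw [← integral_sub (hbi D1 hmD hbdD) (hbi A hm hbd)]
  have hI : ∫ r in t0..(t0 + η), (2 * π - al A r) =
      ∫ r in Ioo (0 : ℝ) 1, g r * (2 * π - al A r) := by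
    rw [intervalIntegral.integral_of_le (by linarith), ← integral_Icc_eq_integral_Ioc]
    have h1 : (fun r => g r * (2 * π - al A r)) =
        (Icc t0 (t0 + η)).indicator (fun r => 2 * π - al A r) := by
      funext r
      by_cases h : r ∈ Icc t0 (t0 + η)
      · simp [hg, indicator_of_mem h]
      · simp [hg, indicator_of_notMem h]
    rw [h1, setIntegral_indicator measurableSet_Icc]
    congr 2
    ext r
    constructor
    · intro h
      exact ⟨⟨lt_of_lt_of_le ht0 h.1, lt_of_le_of_lt h.2 hη1⟩, h⟩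
    · exact fun h => h.2
  rw [hI]
  refine setIntegral_mono_on ((hbi D1 hmD hbdD).sub (hbi A hm hbd)) ?_ measurableSet_Ioo ?_
  · refine Measure.integrableOn_of_bounded (M := 2 * π) (by simp)
      (hgm.mul (measurable_const.sub hm)).aestronglyMeasurable ?_
    filter_upwards with r
    rw [Real.norm_eq_abs, abs_mul]
    have h2 := (hbd r).2
    have h3 := (hbd r).1
    have h5 : |2 * π - al A r| ≤ 2 * π := by
      rw [abs_of_nonneg (by linarith)]; linarith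
    calc |g r| * |2 * π - al A r| ≤ 1 * |2 * π - al A r| :=
          mul_le_mul_of_nonneg_right (hgb r) (abs_nonneg _)
      _ ≤ 2 * π := by linarith
  · intro r hr
    rw [al_D1 hr.1 hr.2]
    have h2 := (hbd r).2
    have h6 : g r * r * (2 * π) - g r * r * al A r = g r * (2 * π - al A r) * r := by ring
    rw [h6]
    have h7 : 0 ≤ g r * (2 * π - al A r) := mul_nonneg (hg0 r) (by linarith)
    nlinarith [hr.2.le]


/-! ## The test field -/

/-- The outer cut-off. -/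
def chi (t0 η r : ℝ) : ℝ := Real.smoothTransition ((r - t0) / η)

lemma chi_cd (t0 η : ℝ) : ContDiff ℝ 1 (chi t0 η) := by
  have h : ContDiff ℝ 1 Real.smoothTransition := Real.smoothTransition.contDiff (n := 1)
  exact h.comp ((contDiff_id.sub contDiff_const).div_const η)

lemma chi_nonneg (t0 η r : ℝ) : 0 ≤ chi t0 η r := Real.smoothTransition.nonneg _

lemma chi_le_one (t0 η r : ℝ) : chi t0 η r ≤ 1 := Real.smoothTransition.le_one _

lemma chi_zero {t0 η r : ℝ} (hη : 0 < η) (h : r ≤ t0) : chi t0 η r = 0 :=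
  Real.smoothTransition.zero_of_nonpos (div_nonpos_of_nonpos_of_nonneg (by linarith) hη.le)

lemma chi_one {t0 η r : ℝ} (hη : 0 < η) (h : t0 + η ≤ r) : chi t0 η r = 1 :=
  Real.smoothTransition.one_of_one_le (by rw [le_div_iff₀ hη]; linarith)

lemma chi_mono {t0 η : ℝ} (hη : 0 < η) : Monotone (chi t0 η) := by
  intro r s hrs
  exact Real.smoothTransition.monotone (div_le_div_of_nonneg_right (by linarith) hη.le)

lemma chi_lip {M : ℝ} (hM : ∀ x y : ℝ,
    |Real.smoothTransition x - Real.smoothTransition y| ≤ M * |x - y|) {t0 η : ℝ} (hη : 0 < η)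
    (r s : ℝ) : |chi t0 η r - chi t0 η s| ≤ M / η * |r - s| := by
  refine (hM _ _).trans_eq ?_
  have h1 : (r - t0) / η - (s - t0) / η = (r - s) / η := by ring
  rw [h1, abs_div, abs_of_pos hη]
  ring

lemma chi_deriv_nonneg {t0 η : ℝ} (hη : 0 < η) (r : ℝ) : 0 ≤ deriv (chi t0 η) r :=
  (chi_mono hη).deriv_nonneg

lemma chi_deriv_le {M : ℝ} (hM0 : 0 ≤ M) (hM : ∀ x y : ℝ,
    |Real.smoothTransition x - Real.smoothTransition y| ≤ M * |x - y|) {t0 η : ℝ} (hη : 0 < η)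
    (r : ℝ) : |deriv (chi t0 η) r| ≤ M / η := by
  have h := norm_deriv_le_of_lip' (f := chi t0 η) (x₀ := r) (C := M / η) (by positivity) (by
    filter_upwards with y
    rw [Real.norm_eq_abs, Real.norm_eq_abs]
    exact chi_lip hM hη y r)
  simpa [Real.norm_eq_abs] using h

/-- The radial part. -/
def NN (b : ℕ) (κ t0 η δ r : ℝ) : ℝ := -(κ * ((1 - chi t0 η r) * chi δ δ r * U b r))

lemma U_cd (b : ℕ) : ContDiff ℝ 1 (U b) := by
  unfold U
  fun_prop

lemma NN_cd (b : ℕ) (κ t0 η δ : ℝ) : ContDiff ℝ 1 (NN b κ t0 η δ) := by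
  unfold NN
  exact (contDiff_const.mul (((contDiff_const.sub (chi_cd t0 η)).mul (chi_cd δ δ)).mul
    (U_cd b))).neg

lemma NN_supp (b : ℕ) {κ t0 η δ : ℝ} (hη : 0 < η) (hδ : 0 < δ) :
    Function.support (NN b κ t0 η δ) ⊆ Icc δ (t0 + η) := by
  intro r hr
  rw [Function.mem_support] at hr
  constructor
  · by_contra h
    apply hr
    unfold NN
    rw [chi_zero (t0 := δ) hδ (not_le.1 h).le]
    ring
  · by_contra h
    apply hr
    unfold NN
    rw [chi_one (t0 := t0) hη (not_le.1 h).le]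
    ring

lemma NN_cs (b : ℕ) {κ t0 η δ : ℝ} (hη : 0 < η) (hδ : 0 < δ) :
    HasCompactSupport (NN b κ t0 η δ) :=
  HasCompactSupport.of_support_subset_isCompact isCompact_Icc (NN_supp b hη hδ)

lemma NN_ts (b : ℕ) {κ t0 η δ : ℝ} (hη : 0 < η) (hδ : 0 < δ) (hη1 : t0 + η < 1) :
    tsupport (NN b κ t0 η δ) ⊆ Ioo (0 : ℝ) 1 := by
  refine (closure_minimal (NN_supp b hη hδ) isClosed_Icc).trans ?_
  intro r hr
  exact ⟨lt_of_lt_of_le hδ hr.1, lt_of_le_of_lt hr.2 hη1⟩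

/-- The radial field. -/
def RR (b : ℕ) (κ t0 η δ : ℝ) (z : ℂ) : ℂ := ((NN b κ t0 η δ ‖z‖ / ‖z‖ ^ 2 : ℝ) : ℂ) * z

/-- The outer field. -/
def ZO (t0 η : ℝ) (Z : ℂ → ℂ) (z : ℂ) : ℂ := chi t0 η ‖z‖ • Z z

/-- The test field. -/
def ZZ (b : ℕ) (κ t0 η δ : ℝ) (Z : ℂ → ℂ) (z : ℂ) : ℂ := ZO t0 η Z z + RR b κ t0 η δ z

lemma chin_cd {t0 η : ℝ} (ht0 : 0 < t0) (hη : 0 < η) : ContDiff ℝ 1 (fun z : ℂ => chi t0 η ‖z‖) := by
  rw [contDiff_iff_contDiffAt]
  intro z
  rcases eq_or_ne z 0 with rfl | hz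
  · have h : (fun z : ℂ => chi t0 η ‖z‖) =ᶠ[𝓝 0] fun _ => 0 := by
      filter_upwards [ball_mem_nhds (0 : ℂ) ht0] with w hw
      exact chi_zero hη (mem_ball_zero_iff.1 hw).le
    exact contDiffAt_const.congr_of_eventuallyEq h
  · exact ((chi_cd t0 η).contDiffAt (x := ‖z‖)).comp z (contDiffAt_norm ℝ hz)

lemma ZO_cd {t0 η : ℝ} (ht0 : 0 < t0) (hη : 0 < η) {Z : ℂ → ℂ} (hZ : ContDiff ℝ 1 Z) :
    ContDiff ℝ 1 (ZO t0 η Z) := (chin_cd ht0 hη).smul hZ

lemma ZO_cs {t0 η : ℝ} {Z : ℂ → ℂ} (hZ : HasCompactSupport Z) :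
    HasCompactSupport (ZO t0 η Z) := hZ.smul_left (f := fun z : ℂ => chi t0 η ‖z‖)

lemma ZO_ts {t0 η : ℝ} (ht0 : 0 < t0) (hη : 0 < η) {Z : ℂ → ℂ} (hZ : tsupport Z ⊆ D1) :
    tsupport (ZO t0 η Z) ⊆ D1 \ {0} := by
  intro z hz
  refine ⟨hZ (tsupport_smul_subset_right (fun z : ℂ => chi t0 η ‖z‖) Z hz), ?_⟩
  have h1 : z ∈ tsupport (fun z : ℂ => chi t0 η ‖z‖) :=
    tsupport_smul_subset_left (fun z : ℂ => chi t0 η ‖z‖) Z hz
  have h2 : tsupport (fun z : ℂ => chi t0 η ‖z‖) ⊆ {z : ℂ | t0 ≤ ‖z‖} := by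
    refine closure_minimal ?_ (isClosed_le continuous_const continuous_norm)
    intro w hw
    rw [Function.mem_support] at hw
    by_contra h
    exact hw (chi_zero hη (le_of_lt (not_le.1 h)))
  intro h0
  have h3 : t0 ≤ ‖z‖ := h2 h1
  rw [mem_singleton_iff.1 h0, norm_zero] at h3
  linarith

lemma ZZ_fl (hmono : S_mono) (hrad : S_rad) {b : ℕ} {Z : ℂ → ℂ} (hZ : Fl2 b D1 Z)
    {κ t0 η δ : ℝ} (hκ : 0 < κ) (ht0 : 0 < t0) (hη : 0 < η) (hη1 : t0 + η < 1) (hδ : 0 < δ)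
    (hk : ∀ r, 0 < r → r ≤ t0 + η → κ * U b r ≤ r * (1 - r) ^ b) :
    Fl2 b (D1 \ {0}) (ZZ b κ t0 η δ Z) := by
  obtain ⟨h1, h2, h3, h4, h5⟩ := hrad (NN b κ t0 η δ) (NN_cd b κ t0 η δ) (NN_cs b hη hδ)
    (NN_ts b hη hδ hη1)
  refine ⟨(ZO_cd ht0 hη hZ.cd).add h1, (ZO_cs hZ.cs).add h2, ?_, ?_⟩
  · refine (tsupport_add _ _).trans (union_subset (ZO_ts ht0 hη hZ.sub) h3)
  · intro z hz
    have hb1 : ‖ZO t0 η Z z‖ ≤ chi t0 η ‖z‖ * (1 - ‖z‖) ^ b := by
      unfold ZO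
      rw [norm_smul, Real.norm_eq_abs, abs_of_nonneg (chi_nonneg _ _ _)]
      exact mul_le_mul_of_nonneg_left (hZ.bd z hz) (chi_nonneg _ _ _)
    have hb2 : ‖RR b κ t0 η δ z‖ ≤ (1 - chi t0 η ‖z‖) * (1 - ‖z‖) ^ b := by
      unfold RR
      rw [h4 z]
      have hp : 0 ≤ (1 - ‖z‖) ^ b := pow_nonneg (by linarith) b
      rcases eq_or_lt_of_le (norm_nonneg z) with h0 | h0
      · rw [← h0, div_zero]
        refine mul_nonneg (by linarith [chi_le_one t0 η 0]) ?_
        norm_num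
      · rcases le_or_gt ‖z‖ (t0 + η) with h6 | h6
        · rw [div_le_iff₀ h0]
          unfold NN
          have hU : 0 ≤ U b ‖z‖ := (hmono b ‖z‖ ‖z‖ h0 le_rfl hz).2.2.1.le
          have h7 : 0 ≤ 1 - chi t0 η ‖z‖ := by linarith [chi_le_one t0 η ‖z‖]
          have h8 : 0 ≤ chi δ δ ‖z‖ := chi_nonneg _ _ _
          have h9 : chi δ δ ‖z‖ ≤ 1 := chi_le_one _ _ _
          rw [abs_neg, abs_of_nonneg (by positivity)]
          have h10 := hk ‖z‖ h0 h6
          calc κ * ((1 - chi t0 η ‖z‖) * chi δ δ ‖z‖ * U b ‖z‖)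
              = (1 - chi t0 η ‖z‖) * (chi δ δ ‖z‖ * (κ * U b ‖z‖)) := by ring
            _ ≤ (1 - chi t0 η ‖z‖) * (1 * (‖z‖ * (1 - ‖z‖) ^ b)) := by
                refine mul_le_mul_of_nonneg_left ?_ h7
                exact mul_le_mul h9 h10 (by positivity) zero_le_one
            _ = (1 - chi t0 η ‖z‖) * (1 - ‖z‖) ^ b * ‖z‖ := by ring
        · unfold NN
          rw [chi_one (t0 := t0) hη h6.le]
          simp
    calc ‖ZZ b κ t0 η δ Z z‖ ≤ ‖ZO t0 η Z z‖ + ‖RR b κ t0 η δ z‖ := norm_add_le _ _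
      _ ≤ (1 - ‖z‖) ^ b := by linarith

/-! ## Divergence of the test field -/

lemma NN_hd (hU : S_U) (b : ℕ) (κ t0 η δ r : ℝ) :
    HasDerivAt (NN b κ t0 η δ)
      (-(κ * ((-(deriv (chi t0 η) r) * chi δ δ r + (1 - chi t0 η r) * deriv (chi δ δ) r) * U b r +
        (1 - chi t0 η r) * chi δ δ r * (r * (1 - r) ^ b)))) r := by
  unfold NN
  have h1 : HasDerivAt (chi t0 η) (deriv (chi t0 η) r) r :=
    ((chi_cd t0 η).differentiable one_ne_zero).differentiableAt.hasDerivAt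
  have h2 : HasDerivAt (chi δ δ) (deriv (chi δ δ) r) r :=
    ((chi_cd δ δ).differentiable one_ne_zero).differentiableAt.hasDerivAt
  have h3 : HasDerivAt (U b) (r * (1 - r) ^ b) r := (hU b).1 r
  have h4 : HasDerivAt (fun x => 1 - chi t0 η x) (-(deriv (chi t0 η) r)) r := h1.const_sub 1
  have h5 := (((h4.mul h2).mul h3).const_mul κ).neg
  exact h5

lemma chi_deriv_zero_left {t0 η r : ℝ} (hη : 0 < η) (h : r < t0) : deriv (chi t0 η) r = 0 := by
  have : chi t0 η =ᶠ[𝓝 r] fun _ => 0 := by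
    filter_upwards [Iio_mem_nhds h] with y hy
    exact chi_zero hη (le_of_lt hy)
  rw [this.deriv_eq]; simp

lemma chi_deriv_zero_right {t0 η r : ℝ} (hη : 0 < η) (h : t0 + η < r) :
    deriv (chi t0 η) r = 0 := by
  have : chi t0 η =ᶠ[𝓝 r] fun _ => 1 := by
    filter_upwards [Ioi_mem_nhds h] with y hy
    exact chi_one hη (le_of_lt hy)
  rw [this.deriv_eq]; simp

lemma dv2_inner (hU : S_U) (hmono : S_mono) (hrad : S_rad) {b : ℕ} (Z : ℂ → ℂ)
    {κ t0 η δ : ℝ} (hκ : 0 < κ) (hη : 0 < η) (hη1 : t0 + η < 1) (hδ : 0 < δ)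
    {z : ℂ} (hz : ‖z‖ < t0) :
    dv2 (ZZ b κ t0 η δ Z) z ≤ -(κ * (chi δ δ ‖z‖ * (1 - ‖z‖) ^ b)) := by
  obtain ⟨h1, h2, h3, h4, h5⟩ := hrad (NN b κ t0 η δ) (NN_cd b κ t0 η δ) (NN_cs b hη hδ)
    (NN_ts b hη hδ hη1)
  have he : ZZ b κ t0 η δ Z =ᶠ[𝓝 z] RR b κ t0 η δ := by
    filter_upwards [(isOpen_lt continuous_norm continuous_const).mem_nhds hz] with w hw
    unfold ZZ ZO
    rw [chi_zero hη (le_of_lt hw)]
    simp
  rw [dv2_congr he]
  have h6 : dv2 (RR b κ t0 η δ) z = deriv (NN b κ t0 η δ) ‖z‖ / ‖z‖ := h5 z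
  rw [h6, (NN_hd hU b κ t0 η δ ‖z‖).deriv, chi_deriv_zero_left hη hz, chi_zero hη hz.le]
  rcases eq_or_lt_of_le (norm_nonneg z) with h0 | h0
  · rw [← h0, div_zero, chi_zero hδ hδ.le]
    simp
  · rw [div_le_iff₀ h0]
    have h7 : 0 ≤ deriv (chi δ δ) ‖z‖ := chi_deriv_nonneg hδ _
    have h8 : 0 ≤ U b ‖z‖ := (hmono b ‖z‖ ‖z‖ h0 le_rfl (by linarith)).2.2.1.le
    have h9 : 0 ≤ κ * (deriv (chi δ δ) ‖z‖ * U b ‖z‖) := by positivity
    nlinarith

lemma dv2_outer {b : ℕ} (Z : ℂ → ℂ) {κ t0 η δ : ℝ} (hη : 0 < η) {z : ℂ}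
    (hz : t0 + η < ‖z‖) : dv2 (ZZ b κ t0 η δ Z) z = dv2 Z z := by
  refine dv2_congr ?_
  filter_upwards [(isOpen_lt continuous_const continuous_norm).mem_nhds hz] with w hw
  unfold ZZ ZO RR NN
  rw [chi_one hη (le_of_lt hw)]
  simp

lemma dv2_layer (hU : S_U) (hmono : S_mono) (hrad : S_rad) {b : ℕ} {Z : ℂ → ℂ}
    (hZ : Fl2 b D1 Z) {κ t0 η δ K M : ℝ} (hκ : 0 < κ) (hη : 0 < η) (hη1 : t0 + η < 1)
    (hδ : 0 < δ) (hδt : 2 * δ < t0) (hK : ∀ z, |dv2 Z z| ≤ K) (hM0 : 0 ≤ M)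
    (hM : ∀ x y : ℝ, |Real.smoothTransition x - Real.smoothTransition y| ≤ M * |x - y|)
    (hk : ∀ r, 0 < r → r ≤ t0 + η → κ * U b r ≤ r * (1 - r) ^ b)
    {z : ℂ} (hz0 : t0 ≤ ‖z‖) (hz1 : ‖z‖ ≤ t0 + η) :
    dv2 (ZZ b κ t0 η δ Z) z - dv2 Z z ≤ K + κ + 3 * (M / η) := by
  obtain ⟨h1, h2, h3, h4, h5⟩ := hrad (NN b κ t0 η δ) (NN_cd b κ t0 η δ) (NN_cs b hη hδ)
    (NN_ts b hη hδ hη1)
  have ht0 : 0 < t0 := by linarith
  have hzp : 0 < ‖z‖ := lt_of_lt_of_le ht0 hz0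
  have hzl : ‖z‖ < 1 := lt_of_le_of_lt hz1 hη1
  have hp0 : 0 ≤ (1 - ‖z‖) ^ b := pow_nonneg (by linarith) b
  have hp1 : (1 - ‖z‖) ^ b ≤ 1 := pow_le_one₀ (by linarith) (by linarith)
  have hMη : 0 ≤ M / η := by positivity
  have hc0 := chi_nonneg t0 η ‖z‖
  have hc1 := chi_le_one t0 η ‖z‖
  have hcd := chin_cd ht0 hη
  have hd1 : DifferentiableAt ℝ (ZO t0 η Z) z :=
    ((ZO_cd ht0 hη hZ.cd).differentiable one_ne_zero).differentiableAt
  have hd2 : DifferentiableAt ℝ (RR b κ t0 η δ) z := (h1.differentiable one_ne_zero).differentiableAt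
  have hd3 : DifferentiableAt ℝ Z z := (hZ.cd.differentiable one_ne_zero).differentiableAt
  have hd4 : DifferentiableAt ℝ (fun z : ℂ => chi t0 η ‖z‖) z :=
    (hcd.differentiable one_ne_zero).differentiableAt
  have e1 : dv2 (ZZ b κ t0 η δ Z) z = dv2 (ZO t0 η Z) z + dv2 (RR b κ t0 η δ) z :=
    dv2_add hd1 hd2
  have e2 := dv2_smul hd4 hd3
  have e2' : dv2 (ZO t0 η Z) z = chi t0 η ‖z‖ * dv2 Z z +
      (fderiv ℝ (fun z : ℂ => chi t0 η ‖z‖) z 1 * (Z z).re +
        fderiv ℝ (fun z : ℂ => chi t0 η ‖z‖) z Complex.I * (Z z).im) := e2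
  have h6 : dv2 (RR b κ t0 η δ) z = deriv (NN b κ t0 η δ) ‖z‖ / ‖z‖ := h5 z
  have hψ1 : chi δ δ ‖z‖ = 1 := chi_one hδ (by linarith)
  have hψ2 : deriv (chi δ δ) ‖z‖ = 0 := chi_deriv_zero_right hδ (by linarith)
  have hχ' := chi_deriv_le hM0 hM (t0 := t0) hη ‖z‖
  have hUk := hk ‖z‖ hzp hz1
  have hU0 : 0 < U b ‖z‖ := (hmono b ‖z‖ ‖z‖ hzp le_rfl hzl).2.2.1
  -- radial part
  have e3 : dv2 (RR b κ t0 η δ) z ≤ M / η := by
    rw [h6, (NN_hd hU b κ t0 η δ ‖z‖).deriv, hψ1, hψ2, div_le_iff₀ hzp]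
    have q1 : deriv (chi t0 η) ‖z‖ ≤ M / η := (le_abs_self _).trans hχ'
    have q2 : deriv (chi t0 η) ‖z‖ * (κ * U b ‖z‖) ≤ M / η * (‖z‖ * (1 - ‖z‖) ^ b) :=
      mul_le_mul q1 hUk (by positivity) hMη
    have q3 : M / η * (‖z‖ * (1 - ‖z‖) ^ b) ≤ M / η * ‖z‖ := by
      refine mul_le_mul_of_nonneg_left ?_ hMη
      exact mul_le_of_le_one_right hzp.le hp1
    have q4 : 0 ≤ κ * ((1 - chi t0 η ‖z‖) * (‖z‖ * (1 - ‖z‖) ^ b)) := by
      have : 0 ≤ 1 - chi t0 η ‖z‖ := by linarith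
      positivity
    nlinarith
  -- tangential derivative of the cut-off
  have hL : ‖fderiv ℝ (fun z : ℂ => chi t0 η ‖z‖) z‖ ≤ M / η := by
    refine norm_fderiv_le_of_lip' ℝ (by positivity) ?_
    filter_upwards with w
    rw [Real.norm_eq_abs]
    refine (chi_lip hM hη _ _).trans ?_
    exact mul_le_mul_of_nonneg_left (abs_norm_sub_norm_le w z) hMη
  have hZb : ‖Z z‖ ≤ 1 := (hZ.bd z hzl).trans hp1
  have hre : |(Z z).re| ≤ 1 := (Complex.abs_re_le_norm _).trans hZb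
  have him : |(Z z).im| ≤ 1 := (Complex.abs_im_le_norm _).trans hZb
  have e4 : fderiv ℝ (fun z : ℂ => chi t0 η ‖z‖) z 1 * (Z z).re ≤ M / η := by
    refine (le_abs_self _).trans ?_
    rw [abs_mul]
    have q1 : |fderiv ℝ (fun z : ℂ => chi t0 η ‖z‖) z 1| ≤ M / η := by
      have := (fderiv ℝ (fun z : ℂ => chi t0 η ‖z‖) z).le_opNorm 1
      rw [norm_one, mul_one, Real.norm_eq_abs] at this
      exact this.trans hL
    calc _ ≤ M / η * 1 := mul_le_mul q1 hre (abs_nonneg _) hMη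
      _ = M / η := mul_one _
  have e5 : fderiv ℝ (fun z : ℂ => chi t0 η ‖z‖) z Complex.I * (Z z).im ≤ M / η := by
    refine (le_abs_self _).trans ?_
    rw [abs_mul]
    have q1 : |fderiv ℝ (fun z : ℂ => chi t0 η ‖z‖) z Complex.I| ≤ M / η := by
      have := (fderiv ℝ (fun z : ℂ => chi t0 η ‖z‖) z).le_opNorm Complex.I
      rw [Complex.norm_I, mul_one, Real.norm_eq_abs] at this
      exact this.trans hL
    calc _ ≤ M / η * 1 := mul_le_mul q1 him (abs_nonneg _) hMη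
      _ = M / η := mul_one _
  have e6 : chi t0 η ‖z‖ * dv2 Z z - dv2 Z z ≤ K := by
    have q1 : chi t0 η ‖z‖ * dv2 Z z - dv2 Z z = (1 - chi t0 η ‖z‖) * (-dv2 Z z) := by ring
    rw [q1]
    have q2 : -dv2 Z z ≤ K := (neg_le_abs _).trans (hK z)
    have q3 : 0 ≤ K := (abs_nonneg _).trans (hK z)
    calc (1 - chi t0 η ‖z‖) * (-dv2 Z z) ≤ (1 - chi t0 η ‖z‖) * K :=
          mul_le_mul_of_nonneg_left q2 (by linarith)
      _ ≤ 1 * K := mul_le_mul_of_nonneg_right (by linarith) q3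
      _ = K := one_mul K
  rw [e1, e2']
  linarith

/-! ## The main estimate -/

lemma main_est (hpol : S_pol) (hU : S_U) (hmono : S_mono) (hrad : S_rad) (hdz : S_dz) {b : ℕ}
    {A : Set ℂ} (hA : MeasurableSet A) (hA1 : A ⊆ D1) {C : ℝ} (hC : P2 b (D1 \ {0}) A C)
    {Z : ℂ → ℂ} (hZ : Fl2 b D1 Z) {κ t0 η δ K M : ℝ} (hκ : 0 < κ) (ht0 : 0 < t0) (hη : 0 < η)
    (hη1 : t0 + η < 1)
    (hδ : 0 < δ) (hδt : 2 * δ < t0) (hK : ∀ z, |dv2 Z z| ≤ K) (hM0 : 0 ≤ M)
    (hM : ∀ x y : ℝ, |Real.smoothTransition x - Real.smoothTransition y| ≤ M * |x - y|)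
    (hk : ∀ r, 0 < r → r ≤ t0 + η → κ * U b r ≤ r * (1 - r) ^ b) :
    ∫ z in A ∪ ball 0 t0, dv2 Z z ≤ C - κ * ms b (ball 0 t0 \ A) +
      κ * volume.real (ball (0 : ℂ) (2 * δ)) +
      (K + κ + 3 * (M / η)) * ∫ r in t0..(t0 + η), (2 * π - al A r) := by
  have hF := ZZ_fl hmono hrad hZ (κ := κ) hκ ht0 hη hη1 hδ hk
  set W := ZZ b κ t0 η δ Z with hW
  have hF' : Fl2 b D1 W := ⟨hF.cd, hF.cs, hF.sub.trans sdiff_subset, hF.bd⟩
  set B : Set ℂ := ball 0 t0 with hB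
  have hBm : MeasurableSet B := measurableSet_ball
  have hBD : B ⊆ D1 := ball_subset_ball (by linarith)
  have hABD : A ∪ B ⊆ D1 := union_subset hA1 hBD
  have iW : Integrable (dv2 W) := dv2_integrable hF.cd hF.cs
  have iZ : Integrable (dv2 Z) := dv2_integrable hZ.cd hZ.cs
  have a1 : ∫ z in A, dv2 W z ≤ C := hC W hF
  have a2 : ∫ z in A ∪ B, dv2 W z = (∫ z in A, dv2 W z) + ∫ z in B \ A, dv2 W z := by
    have := setIntegral_union (μ := volume) (f := dv2 W) (s := A) (t := B \ A)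
      disjoint_sdiff_self_right (hBm.diff hA) iW.integrableOn iW.integrableOn
    rw [union_sdiff_self] at this
    exact this
  have hcompl : ∀ Y : ℂ → ℂ, Fl2 b D1 Y → ∫ z in A ∪ B, dv2 Y z =
      -∫ z in D1 \ (A ∪ B), dv2 Y z := by
    intro Y hY
    have iY : Integrable (dv2 Y) := dv2_integrable hY.cd hY.cs
    have := setIntegral_union (μ := volume) (f := dv2 Y) (s := A ∪ B) (t := D1 \ (A ∪ B))
      disjoint_sdiff_self_right (D1_meas.diff (hA.union hBm)) iY.integrableOn iY.integrableOn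
    rw [union_sdiff_cancel hABD, hdz b Y hY] at this
    linarith
  have a3 : ∫ z in A ∪ B, dv2 Z z = (∫ z in A ∪ B, dv2 W z) +
      ∫ z in D1 \ (A ∪ B), (dv2 W z - dv2 Z z) := by
    rw [hcompl Z hZ, hcompl W hF', integral_sub iW.integrableOn iZ.integrableOn]
    ring
  have hL0 : 0 ≤ K + κ + 3 * (M / η) := by
    have : 0 ≤ K := (abs_nonneg _).trans (hK 0)
    positivity
  have a4 : ∫ z in D1 \ (A ∪ B), (dv2 W z - dv2 Z z) ≤
      (K + κ + 3 * (M / η)) * volume.real (lay t0 η \ A) := by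
    have b1 : ∫ z in D1 \ (A ∪ B), (dv2 W z - dv2 Z z) ≤
        ∫ z in D1 \ (A ∪ B), (lay t0 η).indicator (fun _ => K + κ + 3 * (M / η)) z := by
      refine setIntegral_mono_on (iW.sub iZ).integrableOn ?_
        (D1_meas.diff (hA.union hBm)) ?_
      · refine IntegrableOn.mono_set (t := D1) ?_ sdiff_subset
        refine IntegrableOn.indicator ?_ (lay_meas t0 η)
        exact integrableOn_const vol_D1_lt.ne
      · intro z hz
        have hzB : t0 ≤ ‖z‖ := by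
          by_contra h
          exact hz.2 (Or.inr (mem_ball_zero_iff.2 (not_le.1 h)))
        rcases le_or_gt ‖z‖ (t0 + η) with h | h
        · rw [indicator_of_mem (show z ∈ lay t0 η from ⟨hzB, h⟩)]
          exact dv2_layer hU hmono hrad hZ hκ hη hη1 hδ hδt hK hM0 hM hk hzB h
        · rw [indicator_of_notMem (fun h' : z ∈ lay t0 η => absurd h'.2 (not_le.2 h)), hW,
            dv2_outer Z hη h, sub_self]
    refine b1.trans ?_
    rw [setIntegral_indicator (lay_meas t0 η), setIntegral_const, smul_eq_mul, mul_comm]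
    refine mul_le_mul_of_nonneg_left ?_ hL0
    refine measureReal_mono ?_ ?_
    · intro z hz
      exact ⟨hz.2, fun h => hz.1.2 (Or.inl h)⟩
    · refine ((measure_mono (t := D1) ?_).trans_lt vol_D1_lt).ne
      intro z hz
      simp only [D1, mem_ball_zero_iff]
      exact lt_of_le_of_lt hz.1.2 hη1
  have a5 := layer hpol hA hA1 ht0 hη hη1
  have a6 : ∫ z in B \ A, dv2 W z ≤ -(κ * ms b (B \ A)) + κ * volume.real (ball (0 : ℂ) (2 * δ)) := by
    have hBA : MeasurableSet (B \ A) := hBm.diff hA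
    have hfin : volume (B \ A) < ⊤ :=
      (measure_mono (sdiff_subset.trans hBD)).trans_lt vol_D1_lt
    have ipw : IntegrableOn (fun z : ℂ => (1 - ‖z‖) ^ b) (B \ A) := by
      refine Measure.integrableOn_of_bounded (M := 1) hfin.ne
        (by fun_prop : Continuous fun z : ℂ => (1 - ‖z‖) ^ b).aestronglyMeasurable ?_
      filter_upwards [ae_restrict_mem hBA] with z hz
      have hz1 : ‖z‖ < t0 := mem_ball_zero_iff.1 hz.1
      rw [norm_pow, Real.norm_eq_abs, abs_of_nonneg (by linarith)]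
      exact pow_le_one₀ (by linarith) (by linarith [norm_nonneg z])
    have iind : IntegrableOn ((ball (0 : ℂ) (2 * δ)).indicator (fun _ => κ)) (B \ A) :=
      IntegrableOn.indicator (integrableOn_const hfin.ne) measurableSet_ball
    have b1 : ∫ z in B \ A, dv2 W z ≤ ∫ z in B \ A, (-(κ * (1 - ‖z‖) ^ b) +
        (ball (0 : ℂ) (2 * δ)).indicator (fun _ => κ) z) := by
      refine setIntegral_mono_on iW.integrableOn ((ipw.const_mul κ).neg.add iind) hBA ?_
      intro z hz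
      have hz1 : ‖z‖ < t0 := mem_ball_zero_iff.1 hz.1
      refine (dv2_inner hU hmono hrad Z hκ hη hη1 hδ hz1).trans ?_
      have hp0 : 0 ≤ (1 - ‖z‖) ^ b := pow_nonneg (by linarith) b
      have hp1 : (1 - ‖z‖) ^ b ≤ 1 := pow_le_one₀ (by linarith) (by linarith [norm_nonneg z])
      have hc0 := chi_nonneg δ δ ‖z‖
      rcases lt_or_ge ‖z‖ (2 * δ) with h | h
      · rw [indicator_of_mem (mem_ball_zero_iff.2 h)]
        have q1 : 0 ≤ κ * (chi δ δ ‖z‖ * (1 - ‖z‖) ^ b) := by positivity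
        have q2 : κ * (1 - ‖z‖) ^ b ≤ κ * 1 := mul_le_mul_of_nonneg_left hp1 hκ.le
        linarith
      · rw [indicator_of_notMem (fun h' => absurd (mem_ball_zero_iff.1 h') (not_lt.2 h)),
          chi_one hδ (by linarith), one_mul, add_zero]
    refine b1.trans ?_
    have inp : IntegrableOn (fun z : ℂ => -(κ * (1 - ‖z‖) ^ b)) (B \ A) :=
      (ipw.const_mul κ).neg
    rw [integral_add inp iind, integral_neg, integral_const_mul,
      setIntegral_indicator measurableSet_ball, setIntegral_const, smul_eq_mul]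
    have q3 : volume.real ((B \ A) ∩ ball (0 : ℂ) (2 * δ)) ≤ volume.real (ball (0 : ℂ) (2 * δ)) :=
      measureReal_mono inter_subset_right measure_ball_lt_top.ne
    have q4 : volume.real ((B \ A) ∩ ball (0 : ℂ) (2 * δ)) * κ ≤
        κ * volume.real (ball (0 : ℂ) (2 * δ)) := by
      rw [mul_comm]
      exact mul_le_mul_of_nonneg_left q3 hκ.le
    have q5 : ms b (B \ A) = ∫ z in B \ A, (1 - ‖z‖) ^ b := rfl
    rw [q5]
    linarith
  have a7 : (K + κ + 3 * (M / η)) * volume.real (lay t0 η \ A) ≤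
      (K + κ + 3 * (M / η)) * ∫ r in t0..(t0 + η), (2 * π - al A r) :=
    mul_le_mul_of_nonneg_left a5 hL0
  rw [a3, a2]
  linarith

/-! ## The theorem -/

lemma vol_ball_real {δ : ℝ} (hδ : 0 < δ) : volume.real (ball (0 : ℂ) (2 * δ)) = 4 * δ ^ 2 * π := by
  rw [Measure.real, Complex.volume_ball, ENNReal.toReal_mul, ENNReal.toReal_pow,
    ENNReal.toReal_ofReal (by positivity)]
  simp
  ring

theorem t_B1 (hpol : S_pol) (hU : S_U) (hmono : S_mono) (hrad : S_rad) (hdz : S_dz) : S_B1 := by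
  intro b A hA hA1 C hC t0 κ ht0 ht1 hκ hstrict hdens Z hZ
  obtain ⟨K, hK0, hK⟩ := dv2_bdd hZ.cd hZ.cs
  obtain ⟨M, hM0, hM⟩ := st_lip
  -- the calibration inequality up to slightly beyond t0
  have hcont : Continuous fun r : ℝ => r * (1 - r) ^ b - κ * U b r := by
    have h1 : Continuous (U b) := (U_cd b).continuous
    fun_prop
  have hpos : 0 < t0 * (1 - t0) ^ b - κ * U b t0 := by linarith
  obtain ⟨ε, hε, hε'⟩ := Metric.eventually_nhds_iff.1
    (hcont.continuousAt.eventually (lt_mem_nhds hpos) : ∀ᶠ r in 𝓝 t0,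
      0 < r * (1 - r) ^ b - κ * U b r)
  have hkin : ∀ r, 0 < r → r ≤ t0 → κ * U b r ≤ r * (1 - r) ^ b := by
    intro r hr0 hr1
    have h1 := (hmono b r t0 hr0 hr1 ht1).1
    have h2 : 0 < t0 * (1 - t0) ^ b := by
      have : 0 < 1 - t0 := by linarith
      positivity
    have h3 : 0 ≤ r * (1 - r) ^ b := by
      have : 0 ≤ 1 - r := by linarith
      positivity
    have h4 : κ * U b r * (t0 * (1 - t0) ^ b) ≤ r * (1 - r) ^ b * (t0 * (1 - t0) ^ b) := by
      calc κ * U b r * (t0 * (1 - t0) ^ b) = κ * ((t0 * (1 - t0) ^ b) * U b r) := by ring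
        _ ≤ κ * ((r * (1 - r) ^ b) * U b t0) := mul_le_mul_of_nonneg_left h1 hκ.le
        _ = (r * (1 - r) ^ b) * (κ * U b t0) := by ring
        _ ≤ r * (1 - r) ^ b * (t0 * (1 - t0) ^ b) := mul_le_mul_of_nonneg_left hstrict.le h3
    exact le_of_mul_le_mul_right h4 h2
  have hk : ∀ η, 0 < η → η < ε → ∀ r, 0 < r → r ≤ t0 + η → κ * U b r ≤ r * (1 - r) ^ b := by
    intro η hη hηε r hr0 hr1
    rcases le_or_gt r t0 with h | h
    · exact hkin r hr0 h
    · have h1 : dist r t0 < ε := by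
        rw [Real.dist_eq, abs_of_pos (by linarith)]
        linarith
      linarith [hε' h1]
  set I : ℝ := ∫ z in A ∪ ball 0 t0, dv2 Z z with hI
  set C' : ℝ := C - κ * ms b (ball 0 t0 \ A) with hC'
  -- first limit: δ → 0
  have step1 : ∀ η, 0 < η → η < ε → t0 + η < 1 →
      I ≤ C' + (K + κ + 3 * (M / η)) * ∫ r in t0..(t0 + η), (2 * π - al A r) := by
    intro η hη hηε hη1
    have ht : Tendsto (fun δ : ℝ => C' + κ * (4 * δ ^ 2 * π) +
        (K + κ + 3 * (M / η)) * ∫ r in t0..(t0 + η), (2 * π - al A r)) (𝓝[>] 0)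
        (𝓝 (C' + κ * (4 * (0 : ℝ) ^ 2 * π) +
        (K + κ + 3 * (M / η)) * ∫ r in t0..(t0 + η), (2 * π - al A r))) := by
      refine Tendsto.mono_left ?_ nhdsWithin_le_nhds
      refine Continuous.tendsto ?_ 0
      fun_prop
    have hev : ∀ᶠ δ : ℝ in 𝓝[>] 0, I ≤ C' + κ * (4 * δ ^ 2 * π) +
        (K + κ + 3 * (M / η)) * ∫ r in t0..(t0 + η), (2 * π - al A r) := by
      have h1 : Ioo (0 : ℝ) (t0 / 2) ∈ 𝓝[>] (0 : ℝ) := Ioo_mem_nhdsGT (by linarith)
      filter_upwards [h1] with δ hδ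
      have := main_est hpol hU hmono hrad hdz hA hA1 hC hZ (κ := κ) hκ ht0 hη hη1 hδ.1
        (by linarith [hδ.2]) hK hM0 hM (hk η hη hηε)
      rw [vol_ball_real hδ.1] at this
      exact this
    have := ge_of_tendsto ht hev
    simpa using this
  -- second limit: η → 0
  have ht : Tendsto (fun η : ℝ => C' + ((K + κ) * η + 3 * M) *
      (η⁻¹ * ∫ r in t0..(t0 + η), (2 * π - al A r))) (𝓝[>] 0)
      (𝓝 (C' + ((K + κ) * 0 + 3 * M) * 0)) := by
    refine tendsto_const_nhds.add (Tendsto.mul ?_ hdens)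
    refine Tendsto.mono_left ?_ nhdsWithin_le_nhds
    refine Continuous.tendsto ?_ 0
    fun_prop
  have hev : ∀ᶠ η : ℝ in 𝓝[>] 0, I ≤ C' + ((K + κ) * η + 3 * M) *
      (η⁻¹ * ∫ r in t0..(t0 + η), (2 * π - al A r)) := by
    have h1 : Ioo (0 : ℝ) (min ε (1 - t0)) ∈ 𝓝[>] (0 : ℝ) :=
      Ioo_mem_nhdsGT (lt_min hε (by linarith))
    filter_upwards [h1] with η hη
    have h2 := lt_min_iff.1 hη.2
    have h3 := step1 η hη.1 h2.1 (by linarith [h2.2])
    refine h3.trans_eq ?_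
    have h4 : η ≠ 0 := hη.1.ne'
    field_simp
  have := ge_of_tendsto ht hev
  simpa using this

end Pool.Agent.TH318.MI
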